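import Mathlib

/-!
# Sets of integers with few elements in all windows
-/

set_option autoImplicit false

namespace Pool.Agent.Helper880_AJ

/-- no `N` elements of `B` are in a window -/
def NoWindow (G E N : ℕ) (B : Set ℕ) : Prop :=
  ∀ t : Fin N → ℕ, Function.Injective t → (∀ i j, t i ≡ t j [MOD G]) → (∀ i j, (t i - t j + 2) ^ E ≤ t j) → ∃ i, t i ∉ B

theorem count_nat {G E N : ℕ} (hG : 0 < G) (hN : 0 < N) {B : Set ℕ} (hB : NoWindow G E N B) {g X : ℕ} (hg : 0 < g) :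
    {t | t ∈ B ∧ t ≤ X}.ncard ≤ (g + 2) ^ E + G * (X / g + 1) * (N - 1) := by
  classical
  set S := (Finset.range (X + 1)).filter fun t => t ∈ B with hS
  have h1 : {t | t ∈ B ∧ t ≤ X} = (S : Set ℕ) := by
    ext t
    rw [Finset.mem_coe, hS, Finset.mem_filter, Finset.mem_range]
    constructor
    · rintro ⟨h2, h3⟩
      exact ⟨by omega, h2⟩
    · rintro ⟨h2, h3⟩
      exact ⟨h3, by omega⟩
  rw [h1, Set.ncard_coe_finset]
  have h2 : S ⊆ Finset.range ((g + 2) ^ E) ∪ (Finset.range G ×ˢ Finset.range (X / g + 1)).biUnion fun r =>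
      S.filter fun t => (g + 2) ^ E ≤ t ∧ t % G = r.1 ∧ t / g = r.2 := by
    intro t ht
    rw [Finset.mem_union, Finset.mem_range, Finset.mem_biUnion]
    by_cases h : t < (g + 2) ^ E
    · exact Or.inl h
    · refine Or.inr ⟨(t % G, t / g), ?_, ?_⟩
      · rw [Finset.mem_product, Finset.mem_range, Finset.mem_range]
        refine ⟨Nat.mod_lt _ hG, ?_⟩
        have h3 : t ≤ X := by
          rw [hS, Finset.mem_filter, Finset.mem_range] at ht
          omega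
        exact Nat.lt_succ_of_le (Nat.div_le_div_right h3)
      · rw [Finset.mem_filter]
        exact ⟨ht, by omega, rfl, rfl⟩
  refine (Finset.card_le_card h2).trans ((Finset.card_union_le _ _).trans ?_)
  rw [Finset.card_range]
  refine Nat.add_le_add_left ?_ _
  refine Finset.card_biUnion_le.trans ?_
  have h3 : ∀ r ∈ Finset.range G ×ˢ Finset.range (X / g + 1),
      (S.filter fun t => (g + 2) ^ E ≤ t ∧ t % G = r.1 ∧ t / g = r.2).card ≤ N - 1 := by
    intro r _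
    by_contra hcon
    have h4 : N ≤ (S.filter fun t => (g + 2) ^ E ≤ t ∧ t % G = r.1 ∧ t / g = r.2).card := by omega
    obtain ⟨T, hT, hTc⟩ := Finset.exists_subset_card_eq h4
    let e := (T.equivFinOfCardEq hTc).symm
    have h5 : ∀ i, (e i : ℕ) ∈ B ∧ (g + 2) ^ E ≤ (e i : ℕ) ∧ (e i : ℕ) % G = r.1 ∧ (e i : ℕ) / g = r.2 := by
      intro i
      have h6 := hT (e i).2
      rw [Finset.mem_filter, hS, Finset.mem_filter] at h6
      exact ⟨h6.1.2, h6.2⟩
    obtain ⟨i, hi⟩ := hB (fun i => (e i : ℕ)) (fun a b h => e.injective (Subtype.ext h)) (fun i j => by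
        show (e i : ℕ) % G = (e j : ℕ) % G
        rw [(h5 i).2.2.1, (h5 j).2.2.1]) fun i j => by
        refine (Nat.pow_le_pow_left ?_ E).trans (h5 j).2.1
        have h6 := Nat.div_add_mod (e i : ℕ) g
        have h7 := Nat.div_add_mod (e j : ℕ) g
        have h8 := Nat.mod_lt (e i : ℕ) hg
        rw [(h5 i).2.2.2] at h6
        rw [(h5 j).2.2.2] at h7
        omega
    exact hi (h5 i).1
  refine (Finset.sum_le_card_nsmul _ _ _ h3).trans ?_
  rw [Finset.card_product, Finset.card_range, Finset.card_range, smul_eq_mul]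

/-- **a power saving** -/
theorem count_win {G E N : ℕ} (hG : 0 < G) (hN : 0 < N) : ∃ K δ : ℝ, 0 < δ ∧ ∀ B : Set ℕ, NoWindow G E N B →
    ∀ X : ℕ, 1 ≤ X → (({t | t ∈ B ∧ t ≤ X}.ncard : ℕ) : ℝ) ≤ K * (X : ℝ) ^ (1 - δ) := by
  have hE' : (1 : ℝ) ≤ (E + 1 : ℕ) := by exact_mod_cast Nat.succ_le_succ (Nat.zero_le E)
  have hE0 : (0 : ℝ) < (E + 1 : ℕ) := by linarith
  refine ⟨3 ^ E + 3 * G * N, 1 / (2 * (E + 1 : ℕ)), by positivity, fun B hB X hX => ?_⟩
  set δ : ℝ := 1 / (2 * (E + 1 : ℕ)) with hδ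
  have hδ0 : 0 < δ := by positivity
  have hδ1 : δ ≤ 1 / 2 := by
    rw [hδ]
    apply one_div_le_one_div_of_le <;> linarith
  have hX1 : (1 : ℝ) ≤ X := by exact_mod_cast hX
  have hX0 : (0 : ℝ) < X := by linarith
  set y : ℝ := (X : ℝ) ^ δ with hy
  have hy1 : 1 ≤ y := Real.one_le_rpow hX1 hδ0.le
  set g := ⌊y⌋₊ with hg
  have hg1 : 1 ≤ g := Nat.le_floor (by rw [Nat.cast_one]; exact hy1)
  have hg2 : (g : ℝ) ≤ y := Nat.floor_le (by linarith)
  have hg4 : (1 : ℝ) ≤ g := by exact_mod_cast hg1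
  have hg3 : y ≤ 2 * g := by
    have h1 := Nat.lt_floor_add_one y
    rw [← hg] at h1
    linarith
  have hg0 : (0 : ℝ) < g := by linarith
  have h1 := count_nat hG hN hB (g := g) (X := X) (by omega)
  have h2 : (({t | t ∈ B ∧ t ≤ X}.ncard : ℕ) : ℝ) ≤ ((g : ℝ) + 2) ^ E + G * ((X / g : ℕ) + 1) * (N - 1 : ℕ) := by
    exact_mod_cast h1
  have h3 : ((X / g : ℕ) : ℝ) ≤ X / g := Nat.cast_div_le
  have h4 : ((g : ℝ) + 2) ^ E ≤ 3 ^ E * (X : ℝ) ^ (1 - δ) := by
    calc ((g : ℝ) + 2) ^ E ≤ (3 * y) ^ E := pow_le_pow_left₀ (by positivity) (by linarith) E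
      _ = 3 ^ E * (X : ℝ) ^ (δ * E) := by rw [mul_pow, hy, ← Real.rpow_natCast, ← Real.rpow_natCast, ← Real.rpow_mul hX0.le]
      _ ≤ 3 ^ E * (X : ℝ) ^ (1 - δ) := by
        refine mul_le_mul_of_nonneg_left (Real.rpow_le_rpow_of_exponent_le hX1 ?_) (by positivity)
        have h5 : δ * (E + 1 : ℕ) = 1 / 2 := by
          rw [hδ]
          field_simp
        push_cast at h5
        linarith
  have h5 : (X : ℝ) / g ≤ 2 * (X : ℝ) ^ (1 - δ) := by
    rw [div_le_iff₀ hg0]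
    have h6 : (X : ℝ) ^ (1 - δ) * y = X := by
      rw [hy, ← Real.rpow_add hX0]
      norm_num
    calc (X : ℝ) = (X : ℝ) ^ (1 - δ) * y := h6.symm
      _ ≤ (X : ℝ) ^ (1 - δ) * (2 * g) := mul_le_mul_of_nonneg_left hg3 (by positivity)
      _ = 2 * (X : ℝ) ^ (1 - δ) * g := by ring
  have h6 : 1 ≤ (X : ℝ) ^ (1 - δ) := Real.one_le_rpow hX1 (by linarith)
  have hGr : (0 : ℝ) ≤ G := by positivity
  have h7 : ((N - 1 : ℕ) : ℝ) ≤ N := by exact_mod_cast Nat.sub_le N 1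
  calc (({t | t ∈ B ∧ t ≤ X}.ncard : ℕ) : ℝ) ≤ ((g : ℝ) + 2) ^ E + G * ((X / g : ℕ) + 1) * (N - 1 : ℕ) := h2
    _ ≤ 3 ^ E * (X : ℝ) ^ (1 - δ) + G * (2 * (X : ℝ) ^ (1 - δ) + (X : ℝ) ^ (1 - δ)) * N := by
      refine add_le_add h4 (mul_le_mul (mul_le_mul_of_nonneg_left ?_ hGr) h7 (by positivity) (by positivity))
      linarith
    _ = (3 ^ E + 3 * G * N) * (X : ℝ) ^ (1 - δ) := by ring

end Pool.Agent.Helper880_AJ
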