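import Pool.Agent.Helper880_HC.Act

/-!
# The Lie algebra of rational vectors in the Hodge filtration, and codimensions
-/

set_option autoImplicit false
set_option linter.unusedSectionVars false
set_option linter.unusedVariables false

open Matrix Module

namespace Pool.Agent.Helper880_AJ

open Pool.Agent.Helper880_R3 (Ix Tot Tot_mul Tot_one Tot_unit)
open Pool.Agent.Helper880_ZP (Lie' DefOver K₀ mem_K₀ upS ppS Dg Lv cjS blS cgS Tot_up Tot_Dg one_add_Tot one_add_inv)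
open Pool.Agent.Helper880_HC (mapQ mu_mul)

variable {m N : ℕ}

/-- the vector `e` in the block `j` -/
def emb (j : Fin N) (e : Fin m → ℂ) : Ix 0 m N → ℂ := Sum.elim (fun _ => 0) fun p => if p.2 = j then e p.1 else 0

theorem emb_smul (j : Fin N) (c : ℂ) (e : Fin m → ℂ) : emb j (c • e) = c • emb j e := by
  funext a
  rcases a with a | ⟨a, i⟩
  · exact a.elim0
  · show (if i = j then c * e a else 0) = c * (if i = j then e a else 0)
    rw [mul_ite, mul_zero]

theorem Tot_emb (x : Matrix (Fin 0) (Fin 0) ℂ) (X : Fin N → Matrix (Fin m) (Fin m) ℂ) (j : Fin N) (e : Fin m → ℂ) :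
    Tot x X *ᵥ emb j e = emb j (X j *ᵥ e) := by
  funext a
  rcases a with a | ⟨a, i⟩
  · exact a.elim0
  · show ∑ b : Ix 0 m N, Tot x X (Sum.inr (a, i)) b * emb j e b = if i = j then ∑ b, X j a b * e b else 0
    rw [Fintype.sum_sum_type, Finset.univ_eq_empty, Finset.sum_empty, zero_add, Fintype.sum_prod_type]
    have h1 : ∀ b : Fin m, ∑ k : Fin N, Tot x X (Sum.inr (a, i)) (Sum.inr (b, k)) * emb j e (Sum.inr (b, k)) =
        if i = j then X j a b * e b else 0 := by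
      intro b
      rw [Finset.sum_eq_single j]
      · show blockDiagonal X (a, i) (b, j) * (if j = j then e b else 0) = _
        rw [blockDiagonal_apply, if_pos rfl]
        by_cases h : i = j
        · subst h
          rw [if_pos rfl, if_pos rfl]
        · rw [if_neg h, if_neg h, zero_mul]
      · intro k _ hk
        show _ * (if k = j then e b else 0) = 0
        rw [if_neg hk, mul_zero]
      · intro h
        exact absurd (Finset.mem_univ j) h
    rw [Finset.sum_congr rfl fun b _ => h1 b]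
    by_cases h : i = j
    · simp only [if_pos h]
    · simp only [if_neg h, Finset.sum_const_zero]

variable {κ : Fin N → ℕ}

/-- the matrices for which all `e_(j, a)` are eigenvectors -/
def hs (e : (j : Fin N) → Fin (κ j) → Fin m → ℂ) : Submodule ℂ (Matrix (Ix 0 m N) (Ix 0 m N) ℂ) where
  carrier := {X | ∀ j a, ∃ c : ℂ, X *ᵥ emb j (e j a) = c • emb j (e j a)}
  zero_mem' := fun j a => ⟨0, by rw [zero_mulVec, zero_smul]⟩
  add_mem' := by
    intro X Y hX hY j a
    obtain ⟨c, hc⟩ := hX j a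
    obtain ⟨c', hc'⟩ := hY j a
    exact ⟨c + c', by rw [add_mulVec, hc, hc', add_smul]⟩
  smul_mem' := by
    intro d X hX j a
    obtain ⟨c, hc⟩ := hX j a
    exact ⟨d * c, by rw [smul_mulVec, hc, smul_smul]⟩

theorem hs_lie (e : (j : Fin N) → Fin (κ j) → Fin m → ℂ) : Lie' (hs e) := by
  intro X hX Y hY j a
  obtain ⟨c, hc⟩ := hX j a
  obtain ⟨c', hc'⟩ := hY j a
  refine ⟨0, ?_⟩
  rw [sub_mulVec, ← mulVec_mulVec, ← mulVec_mulVec, hc, hc', mulVec_smul, mulVec_smul, hc, hc', smul_smul, smul_smul,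
    mul_comm, sub_self, zero_smul]

/-- a space which is stable under all rational linear forms is defined over `ℚ` -/
theorem rat_of {B : Type} [Fintype B] [DecidableEq B] {W : Submodule ℂ (Matrix B B ℂ)}
    (h : ∀ μ : ℂ →ₗ[ℚ] ℚ, ∀ Y ∈ W, mapQ μ Y ∈ W) : DefOver K₀ W := by
  classical
  refine le_antisymm ?_ (Submodule.span_le.2 fun X hX => hX.1)
  intro Y hY
  set b := Module.Basis.ofVectorSpace ℚ ℂ with hb
  have hmem : ∀ i, mapQ (b.coord i) Y ∈ Submodule.span ℂ {X | X ∈ W ∧ ∀ i j, X i j ∈ K₀} := by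
    intro i
    exact Submodule.subset_span ⟨h _ Y hY, fun a a' => mem_K₀.2 ⟨_, rfl⟩⟩
  set s : Finset _ := Finset.univ.biUnion fun p : B × B => (b.repr (Y p.1 p.2)).support with hs
  have hsum : Y = ∑ i ∈ s, b i • mapQ (b.coord i) Y := by
    ext p q
    rw [Matrix.sum_apply]
    have h1 := b.linearCombination_repr (Y p q)
    have h2 : (b.repr (Y p q)).support ⊆ s := fun i hi => Finset.mem_biUnion.2 ⟨(p, q), Finset.mem_univ _, hi⟩
    have h3 := Finsupp.sum_of_support_subset (b.repr (Y p q)) h2 (fun i a => a • b i) (fun i _ => zero_smul ℚ (b i))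
    rw [Finsupp.linearCombination_apply, h3] at h1
    conv_lhs => rw [← h1]
    refine Finset.sum_congr rfl fun i _ => ?_
    show (b.repr (Y p q)) i • b i = b i * (((b.repr (Y p q)) i : ℚ) : ℂ)
    rw [Rat.smul_def, mul_comm]
  rw [hsum]
  exact Submodule.sum_mem _ fun i _ => Submodule.smul_mem _ _ (hmem i)

theorem mapQ_mulVec {B : Type} [Fintype B] (μ : ℂ →ₗ[ℚ] ℚ) (X : Matrix B B ℂ) (v : B → ℚ) :
    mapQ μ X *ᵥ (fun b => (v b : ℂ)) = fun a => ((μ ((X *ᵥ fun b => (v b : ℂ)) a) : ℚ) : ℂ) := by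
  funext a
  show ∑ b, ((μ (X a b) : ℚ) : ℂ) * (v b : ℂ) = ((μ (∑ b, X a b * (v b : ℂ)) : ℚ) : ℂ)
  rw [map_sum, Rat.cast_sum]
  refine Finset.sum_congr rfl fun b _ => ?_
  rw [mu_mul, Rat.cast_mul]

/-- **the Lie algebra of rational vectors is rational** -/
theorem hs_rat (e : (j : Fin N) → Fin (κ j) → Fin m → ℚ) : DefOver K₀ (hs fun j a b => (e j a b : ℂ)) := by
  refine rat_of fun μ X hX j a => ?_
  obtain ⟨c, hc⟩ := hX j a
  have h1 : emb j (fun b => (e j a b : ℂ)) =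
      fun b : Ix 0 m N => (((Sum.elim (fun _ => 0) fun p : Fin m × Fin N => if p.2 = j then e j a p.1 else 0 :
        Ix 0 m N → ℚ) b : ℚ) : ℂ) := by
    funext b
    rcases b with b | ⟨b, i⟩
    · exact b.elim0
    · show (if i = j then (e j a b : ℂ) else 0) = ((if i = j then e j a b else 0 : ℚ) : ℂ)
      split_ifs
      · rfl
      · rw [Rat.cast_zero]
  refine ⟨((μ c : ℚ) : ℂ), ?_⟩
  rw [h1] at hc ⊢
  rw [mapQ_mulVec, hc]
  funext b
  show ((μ (c * (_ : ℂ)) : ℚ) : ℂ) = ((μ c : ℚ) : ℂ) * (_ : ℂ)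
  rw [mu_mul, Rat.cast_mul]

/-- linear maps with given values on linearly independent vectors -/
theorem exists_lin {ι V W : Type} [AddCommGroup V] [Module ℂ V] [AddCommGroup W] [Module ℂ W] {v : ι → V}
    (hv : LinearIndependent ℂ v) (w : ι → W) : ∃ g : V →ₗ[ℂ] W, ∀ a, g (v a) = w a := by
  obtain ⟨g, hg⟩ := LinearMap.exists_extend ((Basis.span hv).constr ℂ w)
  refine ⟨g, fun a => ?_⟩
  have h1 := LinearMap.congr_fun hg (Basis.span hv a)
  rw [Basis.constr_basis, LinearMap.comp_apply, Submodule.subtype_apply, Basis.span_apply] at h1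
  exact h1

/-- a rational family which is linearly independent over `ℚ` is linearly independent over `ℂ` -/
theorem li_cast {ι α : Type} [Finite ι] {v : ι → α → ℚ} (hv : LinearIndependent ℚ v) :
    LinearIndependent ℂ fun a b => (v a b : ℂ) := by
  have := Fintype.ofFinite ι
  rw [Fintype.linearIndependent_iff] at hv ⊢
  intro g hg a
  rw [← Module.forall_dual_apply_eq_zero_iff ℚ]
  intro μ
  refine hv (fun a => μ (g a)) ?_ a
  funext b
  have h1 := congrArg μ (congrFun hg b)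
  rw [Finset.sum_apply, map_sum] at h1
  rw [Finset.sum_apply]
  refine Eq.trans (Finset.sum_congr rfl fun c _ => ?_) (h1.trans (map_zero μ))
  show μ (g c) * v c b = μ (g c * (v c b : ℂ))
  rw [mu_mul]

variable {lev : Fin m → ℤ}

theorem lin_sum {α β : Type} [Fintype α] [DecidableEq α] (g : (α → ℂ) →ₗ[ℂ] (β → ℂ)) (x : α → ℂ) (c : β) :
    ∑ b, g (Pi.single b 1) c * x b = g x c := by
  have h2 : x = ∑ b : α, x b • (Pi.single b 1 : α → ℂ) := by
    funext c
    rw [Finset.sum_apply, Finset.sum_eq_single c]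
    · rw [Pi.smul_apply, Pi.single_eq_same, smul_eq_mul, mul_one]
    · intro b _ hb
      rw [Pi.smul_apply, Pi.single_eq_of_ne (Ne.symm hb), smul_zero]
    · intro h
      exact absurd (Finset.mem_univ _) h
  conv_rhs => rw [h2, map_sum, Finset.sum_apply]
  refine Finset.sum_congr rfl fun b _ => ?_
  rw [map_smul, Pi.smul_apply, smul_eq_mul, mul_comm]

/-- vectors of the same level are eigenvectors of a splitting of the filtration -/
theorem exists_spl {i : ℤ} {ι : Type} {x : ι → Fin m → ℂ} (hx : ∀ a c, lev c < i → x a c = 0)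
    (hli : LinearIndependent ℂ fun (a : ι) (c : {c : Fin m // lev c = i}) => x a c.1) :
    ∃ V ∈ upS ℂ lev, ∀ a, ∃ y : Fin m → ℂ, (1 + V) *ᵥ y = x a ∧ Dg ℂ lev *ᵥ y = (i : ℂ) • y := by
  classical
  obtain ⟨g₀, hg₀⟩ := exists_lin hli x
  set g := g₀ ∘ₗ LinearMap.funLeft ℂ ℂ (fun c : {c : Fin m // lev c = i} => c.1) with hg
  refine ⟨Matrix.of fun a b => if lev b = i ∧ i < lev a then g (Pi.single b 1) a else 0, ?_,
    fun a => ⟨fun b => if lev b = i then x a b else 0, ?_, ?_⟩⟩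
  · intro a b hab
    rw [Matrix.of_apply, if_neg]
    rintro ⟨h, h'⟩
    omega
  · rw [add_mulVec, one_mulVec]
    funext c
    rw [Pi.add_apply]
    have h1 : (Matrix.of (fun a b => if lev b = i ∧ i < lev a then g (Pi.single b 1) a else 0) *ᵥ
        fun b => if lev b = i then x a b else 0) c = if i < lev c then x a c else 0 := by
      show ∑ b, (if lev b = i ∧ i < lev c then g (Pi.single b 1) c else 0) * (if lev b = i then x a b else 0) = _
      by_cases hc : i < lev c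
      · rw [if_pos hc]
        have h2 : ∑ b, (if lev b = i ∧ i < lev c then g (Pi.single b 1) c else 0) * (if lev b = i then x a b else 0) =
            ∑ b, g (Pi.single b 1) c * (if lev b = i then x a b else 0) := by
          refine Finset.sum_congr rfl fun b _ => ?_
          by_cases hb : lev b = i
          · rw [if_pos ⟨hb, hc⟩]
          · rw [if_neg hb, mul_zero, mul_zero]
        rw [h2, lin_sum, hg, LinearMap.comp_apply, ← congrFun (hg₀ a) c]
        have h3 : (LinearMap.funLeft ℂ ℂ fun c : {c : Fin m // lev c = i} => c.1) (fun b => if lev b = i then x a b else 0) =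
            fun c => x a c.1 := by
          funext d
          show (if lev d.1 = i then x a d.1 else 0) = x a d.1
          rw [if_pos d.2]
        rw [h3]
      · rw [if_neg hc]
        refine Finset.sum_eq_zero fun b _ => ?_
        rw [if_neg fun h => hc h.2, zero_mul]
    rw [h1]
    show (if lev c = i then x a c else 0) + (if i < lev c then x a c else 0) = x a c
    rcases lt_trichotomy (lev c) i with h | h | h
    · rw [if_neg h.ne, if_neg h.not_gt, hx a c h, add_zero]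
    · rw [if_pos h, if_neg (by omega), add_zero]
    · rw [if_neg h.ne', if_pos h, zero_add]
  · funext c
    unfold Dg
    rw [mulVec_diagonal, Pi.smul_apply, smul_eq_mul]
    by_cases h : lev c = i
    · rw [h]
    · rw [if_neg h, mul_zero, mul_zero]

/-- the splitting for all blocks -/
theorem exists_phi {P : Fin N → Matrix (Fin m) (Fin m) ℂ} (hP : ∀ j, IsUnit (P j).det)
    {x : (j : Fin N) → Fin (κ j) → Fin m → ℂ} {i : ℤ} (hx : ∀ j a c, lev c < i → x j a c = 0)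
    (hli : ∀ j, LinearIndependent ℂ fun (a : Fin (κ j)) (c : {c : Fin m // lev c = i}) => x j a c.1)
    (C₀ : Matrix (Fin 0) (Fin 0) ℂ) (lev₀ : Fin 0 → ℤ) :
    ∃ φ ∈ hs fun j a => P j *ᵥ x j a, ∃ V ∈ upS ℂ (Lv N lev₀ lev),
      φ * (Tot C₀ P * (1 + V)) = Tot C₀ P * (1 + V) * Dg ℂ (Lv N lev₀ lev) := by
  choose V hV y hy hp using fun j => exists_spl (lev := lev) (hx j) (hli j)
  have hu : ∀ j, IsUnit (P j * (1 + V j)).det := by
    intro j
    obtain ⟨V', hV', h1, h2⟩ := one_add_inv (hV j)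
    rw [det_mul]
    exact (hP j).mul ((Matrix.isUnit_iff_isUnit_det _).1 ⟨⟨1 + V j, V', h1, h2⟩, rfl⟩)
  refine ⟨Tot (0 : Matrix (Fin 0) (Fin 0) ℂ) fun j => P j * (1 + V j) * Dg ℂ lev * (P j * (1 + V j))⁻¹, ?_,
    Tot (0 : Matrix (Fin 0) (Fin 0) ℂ) V, Tot_up (fun a => a.elim0) hV, ?_⟩
  · intro j a
    refine ⟨(i : ℂ), ?_⟩
    rw [Tot_emb, ← emb_smul]
    congr 1
    have h1 : P j *ᵥ x j a = (P j * (1 + V j)) *ᵥ y j a := by
      rw [← hy j a, mulVec_mulVec]
    show (P j * (1 + V j) * Dg ℂ lev * (P j * (1 + V j))⁻¹) *ᵥ (P j *ᵥ x j a) = (i : ℂ) • (P j *ᵥ x j a)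
    rw [h1, mulVec_mulVec, Matrix.mul_assoc, nonsing_inv_mul _ (hu j), Matrix.mul_one, ← mulVec_mulVec, hp j a, mulVec_smul]
  · rw [one_add_Tot, ← Tot_Dg, Tot_mul, Tot_mul, Tot_mul]
    congr 1
    funext j
    rw [Matrix.mul_assoc _ _ (P j * (1 + V j)), nonsing_inv_mul _ (hu j), Matrix.mul_one]

/-- **codimension** -/
theorem codim {P : Fin N → Matrix (Fin m) (Fin m) ℂ} {C₀ : Matrix (Fin 0) (Fin 0) ℂ} (hu : IsUnit (Tot C₀ P).det)
    {x : (j : Fin N) → Fin (κ j) → Fin m → ℂ} {i : ℤ} (hx : ∀ j a c, lev c < i → x j a c = 0)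
    {𝔪 : Submodule ℂ (Matrix (Fin m) (Fin m) ℂ)}
    (hsurj : ∀ j, ∀ y : Fin (κ j) → {b // lev b < i} → ℂ, ∃ X ∈ 𝔪, ∀ a, ∃ z : Fin m → ℂ,
      X *ᵥ (P j *ᵥ x j a) = P j *ᵥ z ∧ ∀ b, z b.1 = y a b)
    {lev₀ : Fin 0 → ℤ} {r : ℕ}
    (hcod : finrank ℂ (blS 0 N 𝔪) ≤ finrank ℂ (blS 0 N 𝔪 ⊓ ((hs fun j a => P j *ᵥ x j a) ⊔
      cjS (Tot C₀ P) (ppS ℂ (Lv N lev₀ lev))) : Submodule ℂ (Matrix (Ix 0 m N) (Ix 0 m N) ℂ)) + r) :
    (∑ j, κ j) * Fintype.card {b // lev b < i} ≤ r := by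
  classical
  set Q := Tot C₀ P with hQ
  let Ψ : Matrix (Ix 0 m N) (Ix 0 m N) ℂ →ₗ[ℂ] ((Σ j, Fin (κ j)) × {b // lev b < i} → ℂ) :=
    { toFun := fun X p => (Q⁻¹ *ᵥ (X *ᵥ emb p.1.1 (P p.1.1 *ᵥ x p.1.1 p.1.2))) (Sum.inr (p.2.1, p.1.1))
      map_add' := fun X Y => by
        funext p
        show (Q⁻¹ *ᵥ ((X + Y) *ᵥ _)) _ = _
        rw [add_mulVec, mulVec_add]
        rfl
      map_smul' := fun c X => by
        funext p
        show (Q⁻¹ *ᵥ ((c • X) *ᵥ _)) _ = _
        rw [smul_mulVec, mulVec_smul]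
        rfl }
  have hΨ : ∀ X p, Ψ X p = (Q⁻¹ *ᵥ (X *ᵥ emb p.1.1 (P p.1.1 *ᵥ x p.1.1 p.1.2))) (Sum.inr (p.2.1, p.1.1)) :=
    fun _ _ => rfl
  have hinv : ∀ j (z : Fin m → ℂ), Q⁻¹ *ᵥ emb j (P j *ᵥ z) = emb j z := by
    intro j z
    rw [← Tot_emb C₀ P, ← hQ, mulVec_mulVec, nonsing_inv_mul _ hu, one_mulVec]
  have hker : (hs fun j a => P j *ᵥ x j a) ⊔ cjS Q (ppS ℂ (Lv N lev₀ lev)) ≤ LinearMap.ker Ψ := by
    refine sup_le (fun X hX => ?_) fun X hX => ?_
    · rw [LinearMap.mem_ker]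
      funext p
      obtain ⟨c, hc⟩ := hX p.1.1 p.1.2
      rw [hΨ, hc, mulVec_smul, hinv]
      show c * (if p.1.1 = p.1.1 then x p.1.1 p.1.2 p.2.1 else 0) = 0
      rw [if_pos rfl, hx p.1.1 p.1.2 p.2.1 p.2.2, mul_zero]
    · rw [LinearMap.mem_ker]
      funext p
      have h1 : Q⁻¹ *ᵥ (X *ᵥ emb p.1.1 (P p.1.1 *ᵥ x p.1.1 p.1.2)) = (Q⁻¹ * X * Q) *ᵥ emb p.1.1 (x p.1.1 p.1.2) := by
        rw [← mulVec_mulVec, ← mulVec_mulVec, hQ, Tot_emb]
      rw [hΨ, h1]
      show ∑ c, (Q⁻¹ * X * Q) (Sum.inr (p.2.1, p.1.1)) c * emb p.1.1 (x p.1.1 p.1.2) c = 0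
      refine Finset.sum_eq_zero fun c _ => ?_
      rcases c with c | ⟨c, k⟩
      · exact c.elim0
      · by_cases hc : lev c < i
        · have h2 : emb p.1.1 (x p.1.1 p.1.2) (Sum.inr (c, k)) = 0 := by
            show (if k = p.1.1 then x p.1.1 p.1.2 c else 0) = 0
            rw [hx p.1.1 p.1.2 c hc, ite_self]
          rw [h2, mul_zero]
        · have h2 : (Q⁻¹ * X * Q) (Sum.inr (p.2.1, p.1.1)) (Sum.inr (c, k)) = 0 :=
            hX _ _ (lt_of_lt_of_le p.2.2 (not_lt.1 hc))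
          rw [h2, zero_mul]
  set f := Ψ.domRestrict (blS 0 N 𝔪) with hf
  have hrange : LinearMap.range f = ⊤ := by
    rw [LinearMap.range_eq_top]
    intro y
    choose X hX z hz1 hz2 using fun j => hsurj j fun a b => y (⟨j, a⟩, b)
    refine ⟨⟨Tot 0 X, X, hX, rfl⟩, ?_⟩
    funext p
    show Ψ (Tot 0 X) p = y p
    rw [hΨ, Tot_emb, hz1, hinv]
    show (if p.1.1 = p.1.1 then z p.1.1 p.1.2 p.2.1 else 0) = y p
    rw [if_pos rfl, hz2]
  have h1 := LinearMap.finrank_range_add_finrank_ker f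
  rw [hrange, finrank_top, finrank_fintype_fun_eq_card, Fintype.card_prod, Fintype.card_sigma] at h1
  simp only [Fintype.card_fin] at h1
  have h2 : finrank ℂ (blS 0 N 𝔪 ⊓ ((hs fun j a => P j *ᵥ x j a) ⊔ cjS Q (ppS ℂ (Lv N lev₀ lev))) :
      Submodule ℂ (Matrix (Ix 0 m N) (Ix 0 m N) ℂ)) ≤ finrank ℂ (LinearMap.ker f) := by
    have h3 : (blS 0 N 𝔪 ⊓ ((hs fun j a => P j *ᵥ x j a) ⊔ cjS Q (ppS ℂ (Lv N lev₀ lev))) :
        Submodule ℂ (Matrix (Ix 0 m N) (Ix 0 m N) ℂ)) ≤ (LinearMap.ker f).map (blS 0 N 𝔪).subtype := by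
      intro X hX
      refine ⟨⟨X, hX.1⟩, ?_, rfl⟩
      show Ψ X = 0
      exact hker hX.2
    refine (Submodule.finrank_mono h3).trans ?_
    exact (Submodule.equivMapOfInjective (blS 0 N 𝔪).subtype (blS 0 N 𝔪).injective_subtype _).finrank_eq.ge
  omega

end Pool.Agent.Helper880_AJ
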