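import Pool.Agent.Helper880_AJ.Lin

/-!
# Rational vectors in the Hodge filtration of an extension
-/

set_option autoImplicit false
set_option linter.unusedSectionVars false
set_option linter.unusedVariables false
set_option maxHeartbeats 1000000

open Matrix Module PowerSeries

namespace Pool.Agent.Helper880_AJ

open Pool.Agent.Helper880_R3 (Ix Tot Tot_mul Tot_one Tot_unit Inf Few)
open Pool.Agent.Helper880_ZP (Lie' DefOver K₀ mem_K₀ upS ppS Dg Lv cjS blS cgS hF hF_coord)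
open Pool.Agent.Y113 (ev Cv GSys ps)
open Pool.Agent.Y120.GH (QU0)
open Pool.Agent.Y118.HV (Hv hh)
open Pool.Agent.Y119.HY (cm cm_pow cm_apply)

variable {m N : ℕ}

/-- the matrix maps the first `n` coordinates to themselves -/
def Up {R : Type} [Zero R] (n : ℕ) (X : Matrix (Fin m) (Fin m) R) : Prop :=
  ∀ a b : Fin m, n ≤ (a : ℕ) → (b : ℕ) < n → X a b = 0

/-- the matrices with non-zero entries only in the upper right block -/
def crS (n : ℕ) : Submodule ℂ (Matrix (Fin m) (Fin m) ℂ) where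
  carrier := {X | ∀ a b : Fin m, ¬((a : ℕ) < n ∧ n ≤ (b : ℕ)) → X a b = 0}
  zero_mem' := fun _ _ _ => rfl
  add_mem' := by
    intro X Y hX hY a b h
    rw [Matrix.add_apply, hX a b h, hY a b h, add_zero]
  smul_mem' := by
    intro c X hX a b h
    rw [Matrix.smul_apply, hX a b h, smul_zero]

theorem Up.mul {n : ℕ} {X Y : Matrix (Fin m) (Fin m) ℂ} (hX : Up n X) (hY : Up n Y) : Up n (X * Y) := by
  intro a b ha hb
  rw [Matrix.mul_apply]
  refine Finset.sum_eq_zero fun c _ => ?_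
  by_cases hc : (c : ℕ) < n
  · rw [hX a c ha hc, zero_mul]
  · rw [hY c b (not_lt.1 hc) hb, mul_zero]

theorem Up.one {n : ℕ} : Up n (1 : Matrix (Fin m) (Fin m) ℂ) := by
  intro a b ha hb
  rw [Matrix.one_apply_ne]
  rintro rfl
  omega

theorem Up.pow {n : ℕ} {X : Matrix (Fin m) (Fin m) ℂ} (hX : Up n X) (k : ℕ) : Up n (X ^ k) := by
  induction k with
  | zero => rw [pow_zero]; exact Up.one
  | succ k ih => rw [pow_succ]; exact ih.mul hX

theorem Up.exp {n : ℕ} {X : Matrix (Fin m) (Fin m) ℂ} (hX : Up n X) (hN : X ^ m = 0) (s : ℂ) :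
    Up n (NormedSpace.exp (s • X)) := by
  rw [← Pool.Agent.Y119.HY.E_exp hN]
  intro a b ha hb
  unfold Pool.Agent.Y119.HY.E
  rw [Matrix.sum_apply]
  refine Finset.sum_eq_zero fun k _ => ?_
  rw [Matrix.smul_apply, hX.pow k a b ha hb, smul_zero]

theorem Up.inv {n : ℕ} {X : Matrix (Fin m) (Fin m) ℂ} (hX : Up n X) (hu : IsUnit X.det) : Up n X⁻¹ := by
  let _ := Matrix.invertibleOfIsUnitDet X hu
  have h1 : X.BlockTriangular fun a => if (a : ℕ) < n then (0 : ℕ) else 1 := by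
    intro a b hab
    by_cases ha : (a : ℕ) < n
    · simp only [if_pos ha] at hab
      omega
    · by_cases hb : (b : ℕ) < n
      · exact hX a b (not_lt.1 ha) hb
      · simp only [if_neg ha, if_neg hb] at hab
        omega
  have h2 := Matrix.blockTriangular_inv_of_blockTriangular h1
  intro a b ha hb
  refine h2 ?_
  simp only [if_pos hb, if_neg (not_lt.2 ha)]
  omega

theorem Up.mulVec {n : ℕ} {X : Matrix (Fin m) (Fin m) ℂ} (hX : Up n X) {v : Fin m → ℂ} (hv : ∀ a : Fin m, n ≤ (a : ℕ) → v a = 0) :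
    ∀ a : Fin m, n ≤ (a : ℕ) → (X *ᵥ v) a = 0 := by
  intro a ha
  show ∑ c, X a c * v c = 0
  refine Finset.sum_eq_zero fun c _ => ?_
  by_cases hc : (c : ℕ) < n
  · rw [hX a c ha hc, zero_mul]
  · rw [hv c (not_lt.1 hc), mul_zero]

theorem cr_br {n : ℕ} {X Y : Matrix (Fin m) (Fin m) ℂ} (hX : Up n X) (hY : Y ∈ crS (m := m) n) : X * Y - Y * X ∈ crS (m := m) n := by
  intro a b hab
  rw [Matrix.sub_apply, Matrix.mul_apply, Matrix.mul_apply]
  rw [Finset.sum_eq_zero fun c _ => ?_, Finset.sum_eq_zero fun c _ => ?_, sub_zero]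
  · by_cases h : (a : ℕ) < n ∧ n ≤ (c : ℕ)
    · rw [hX c b h.2 (by by_contra hb; exact hab ⟨h.1, not_lt.1 hb⟩), mul_zero]
    · rw [hY a c h, zero_mul]
  · by_cases h : (c : ℕ) < n ∧ n ≤ (b : ℕ)
    · rw [hX a c (by by_contra ha; exact hab ⟨not_le.1 ha, h.2⟩) h.1, zero_mul]
    · rw [hY c b h, mul_zero]

variable {lev : Fin m → ℤ} {i : ℤ} {n : ℕ}

/-- the last coordinates of linearly independent vectors modulo `V` -/
theorem li_last {C : Matrix (Fin m) (Fin m) ℂ} (hC : IsUnit C.det) (hCu : Up n C) {ι : Type} [Finite ι] {e : ι → Fin m → ℂ}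
    (he : LinearIndependent ℂ fun (a : ι) (c : {c : Fin m // n ≤ (c : ℕ)}) => e a c.1) :
    LinearIndependent ℂ fun (a : ι) (c : {c : Fin m // n ≤ (c : ℕ)}) => (C⁻¹ *ᵥ e a) c.1 := by
  have := Fintype.ofFinite ι
  rw [Fintype.linearIndependent_iff] at he ⊢
  intro g hg
  refine he g ?_
  have h1 : C *ᵥ (∑ a, g a • (C⁻¹ *ᵥ e a)) = ∑ a, g a • e a := by
    rw [mulVec_sum]
    refine Finset.sum_congr rfl fun a _ => ?_
    rw [mulVec_smul, mulVec_mulVec, mul_nonsing_inv _ hC, one_mulVec]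
  funext c
  rw [Finset.sum_apply]
  have h2 := hCu.mulVec (v := ∑ a, g a • (C⁻¹ *ᵥ e a)) (fun b hb => by
    have h3 := congrFun hg ⟨b, hb⟩
    rw [Finset.sum_apply] at h3
    rw [Finset.sum_apply]
    exact h3) c.1 c.2
  rw [h1, Finset.sum_apply] at h2
  exact h2

theorem surj {P C : Matrix (Fin m) (Fin m) ℂ} (hC : IsUnit C.det) (hCu : Up n C) (hPu : Up n P)
    (hlev : ∀ b : Fin m, n ≤ (b : ℕ) → lev b = i) {ι : Type} [Finite ι] {e : ι → Fin m → ℂ}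
    (he : LinearIndependent ℂ fun (a : ι) (c : {c : Fin m // n ≤ (c : ℕ)}) => e a c.1)
    (y : ι → {b // lev b < i} → ℂ) :
    ∃ X ∈ cgS C (crS (m := m) n), ∀ a, ∃ z : Fin m → ℂ, X *ᵥ e a = P *ᵥ z ∧ ∀ b, z b.1 = y a b := by
  classical
  set z : ι → Fin m → ℂ := fun a b => if h : lev b < i then y a ⟨b, h⟩ else 0 with hz
  have hz1 : ∀ a, ∀ b : Fin m, n ≤ (b : ℕ) → z a b = 0 := by
    intro a b hb
    rw [hz]
    exact dif_neg (by rw [hlev b hb]; exact lt_irrefl _)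
  have hu1 : ∀ a, ∀ b : Fin m, n ≤ (b : ℕ) → (C⁻¹ *ᵥ (P *ᵥ z a)) b = 0 := fun a =>
    (hCu.inv hC).mulVec (hPu.mulVec (hz1 a))
  obtain ⟨g₀, hg₀⟩ := exists_lin (li_last hC hCu he) fun a => C⁻¹ *ᵥ (P *ᵥ z a)
  set g := g₀ ∘ₗ LinearMap.funLeft ℂ ℂ (fun c : {c : Fin m // n ≤ (c : ℕ)} => c.1) with hg
  set Y : Matrix (Fin m) (Fin m) ℂ := Matrix.of fun a b => if (a : ℕ) < n ∧ n ≤ (b : ℕ) then g (Pi.single b 1) a else 0
    with hY
  have hYm : Y ∈ crS (m := m) n := by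
    intro a b hab
    rw [hY, Matrix.of_apply, if_neg hab]
  have hYe : ∀ a, Y *ᵥ (C⁻¹ *ᵥ e a) = C⁻¹ *ᵥ (P *ᵥ z a) := by
    intro a
    funext c
    show ∑ b, Y c b * (C⁻¹ *ᵥ e a) b = (C⁻¹ *ᵥ (P *ᵥ z a)) c
    by_cases hc : (c : ℕ) < n
    · have h2 : ∑ b, Y c b * (C⁻¹ *ᵥ e a) b =
          ∑ b, g (Pi.single b 1) c * (if n ≤ (b : ℕ) then (C⁻¹ *ᵥ e a) b else 0) := by
        refine Finset.sum_congr rfl fun b _ => ?_
        by_cases hb : n ≤ (b : ℕ)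
        · rw [hY, Matrix.of_apply, if_pos ⟨hc, hb⟩, if_pos hb]
        · rw [hY, Matrix.of_apply, if_neg fun h => hb h.2, if_neg hb, mul_zero, zero_mul]
      have h3 : (LinearMap.funLeft ℂ ℂ fun c : {c : Fin m // n ≤ (c : ℕ)} => c.1)
          (fun b : Fin m => if n ≤ (b : ℕ) then (C⁻¹ *ᵥ e a) b else 0) = fun c => (C⁻¹ *ᵥ e a) c.1 := by
        funext d
        show (if n ≤ (d.1 : ℕ) then (C⁻¹ *ᵥ e a) d.1 else 0) = (C⁻¹ *ᵥ e a) d.1
        rw [if_pos d.2]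
      rw [h2, lin_sum, hg, LinearMap.comp_apply, h3, ← congrFun (hg₀ a) c]
    · rw [hu1 a c (not_lt.1 hc)]
      refine Finset.sum_eq_zero fun b _ => ?_
      rw [hY, Matrix.of_apply, if_neg fun h => hc h.1, zero_mul]
  refine ⟨C * Y * C⁻¹, ⟨Y, hYm, rfl⟩, fun a => ⟨z a, ?_, fun b => ?_⟩⟩
  · rw [← mulVec_mulVec, ← mulVec_mulVec, hYe, mulVec_mulVec, mul_nonsing_inv _ hC, one_mulVec]
  · rw [hz]
    exact dif_pos b.2

/-- coordinates of the vectors of level `i` -/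
theorem li_mid {P : Matrix (Fin m) (Fin m) ℂ} (hPu : Up n P) (hlev : ∀ b : Fin m, n ≤ (b : ℕ) → lev b = i)
    {ι : Type} [Finite ι] {x : ι → Fin m → ℂ}
    (he : LinearIndependent ℂ fun (a : ι) (c : {c : Fin m // n ≤ (c : ℕ)}) => (P *ᵥ x a) c.1) :
    LinearIndependent ℂ fun (a : ι) (c : {c : Fin m // lev c = i}) => x a c.1 := by
  have := Fintype.ofFinite ι
  rw [Fintype.linearIndependent_iff] at he ⊢
  intro g hg
  refine he g ?_
  funext c
  rw [Finset.sum_apply]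
  have h1 : P *ᵥ (∑ a, g a • x a) = ∑ a, g a • (P *ᵥ x a) := by
    rw [mulVec_sum]
    exact Finset.sum_congr rfl fun a _ => mulVec_smul _ _ _
  have h2 := hPu.mulVec (v := ∑ a, g a • x a) (fun b hb => by
    have h3 := congrFun hg ⟨b, hlev b hb⟩
    rw [Finset.sum_apply] at h3
    rw [Finset.sum_apply]
    exact h3) c.1 c.2
  rw [h1, Finset.sum_apply] at h2
  exact h2

/-- **the main theorem for tuples** -/
theorem main (hm : 0 < m) {Z : Matrix (Fin m) (Fin m) ℚ⟦X⟧} {T : Polynomial ℤ} {A : Fin (m * m) → Fin (m * m) → Polynomial ℤ}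
    (hT : T ≠ 0) (hode : ∀ i, ps T * d⁄dX ℚ (hh Z i) = ∑ j, ps (A i j) * hh Z j)
    {q' : ℕ} {C' : ℝ} (hG' : GSys q' C' T (hh Z)) (hqu : QU0 T A)
    (hI : ∀ X ∈ crS (m := m) n, Inf Z X) {M : Matrix (Fin m) (Fin m) ℚ} (hM : M ^ m = 0) (hMu : Up n M)
    (hZu : Up n Z) :
    ∃ G : ℕ, 1 ≤ G ∧ ∀ (N s r : ℕ) (C : Matrix (Fin m) (Fin m) ℂ) (lev : Fin m → ℤ) (i : ℤ), 0 < N → Up n C →
      Few s (0 : Matrix (Fin 0) (Fin 0) ℂ) C → s + (if M = 0 then 0 else 1) ≤ r →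
      (∀ b : Fin m, n ≤ (b : ℕ) → lev b = i) → ∃ E : ℕ, ∀ t : Fin N → ℕ, Function.Injective t →
      (∀ i j, t i ≡ t j [MOD G]) → (∀ i j, (t i - t j + 2) ^ E ≤ t j) →
      ∀ P : Fin N → Matrix (Fin m) (Fin m) ℂ,
      P = (fun j => C * (NormedSpace.exp ((-((Real.log (t j : ℝ) : ℝ) : ℂ)) • cm M) * Hv Z (t j))) →
      (∀ j, IsUnit (P j)) → ∀ (κ : Fin N → ℕ) (e : (j : Fin N) → Fin (κ j) → Fin m → ℚ),
      (∀ j, LinearIndependent ℚ fun (a : Fin (κ j)) (c : {c : Fin m // n ≤ (c : ℕ)}) => e j a c.1) →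
      (∀ j a, (fun b => (e j a b : ℂ)) ∈ hF lev (P j) i) → (∑ j, κ j) * Fintype.card {b // lev b < i} ≤ r := by
  have hMc : (cm M) ^ m = 0 := by
    rw [← cm_pow, hM]
    exact map_zero _
  have hMuc : Up n (cm M) := by
    intro a b ha hb
    rw [cm_apply, hMu a b ha hb, Rat.cast_zero]
  obtain ⟨G, hG1, h⟩ := Pool.Agent.Helper880_ZP.two hm hT hode hG' hqu hI hM (fun Y hY => cr_br hMuc hY)
  refine ⟨G, hG1, fun N s r C lev i hN hCu hfew hr hlev => ?_⟩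
  obtain ⟨E, hE⟩ := h N 1 0 s r (0 : Matrix (Fin 0) (Fin 0) ℂ) C (fun _ => 0) lev hN hfew hr
  refine ⟨E, fun t ht1 ht2 ht3 P hP hPu κ e he1 he2 => ?_⟩
  have hdet : ∀ j, IsUnit (P j).det := fun j => (Matrix.isUnit_iff_isUnit_det _).1 (hPu j)
  have htot : IsUnit (Tot (0 : Matrix (Fin 0) (Fin 0) ℂ) P) := by
    rw [Matrix.isUnit_iff_isUnit_det]
    unfold Tot
    rw [Matrix.det_fromBlocks_zero₂₁, Matrix.det_blockDiagonal, Matrix.det_isEmpty, one_mul]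
    exact isUnit_iff_ne_zero.2 (Finset.prod_ne_zero_iff.2 fun j _ => (hdet j).ne_zero)
  have hC : IsUnit C.det := by
    have h1 := hdet ⟨0, hN⟩
    rw [hP] at h1
    simp only [Matrix.det_mul] at h1
    exact isUnit_of_mul_isUnit_left h1
  choose x hx1 hx2 using fun j a => hF_coord (he2 j a)
  have hPup : ∀ j, Up n (P j) := by
    intro j
    rw [hP]
    refine hCu.mul ((hMuc.exp hMc _).mul fun a b ha hb => ?_)
    show ((∑' k : ℕ, _ : ℝ) : ℂ) = 0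
    simp [hZu a b ha hb]
  have hxe : (fun j a => P j *ᵥ x j a) = fun j a b => (e j a b : ℂ) := funext fun j => funext fun a => hx2 j a
  have hli1 : ∀ j, LinearIndependent ℂ fun (a : Fin (κ j)) (c : {c : Fin m // n ≤ (c : ℕ)}) => (P j *ᵥ x j a) c.1 := by
    intro j
    have h1 := li_cast (he1 j)
    have h2 : (fun (a : Fin (κ j)) (c : {c : Fin m // n ≤ (c : ℕ)}) => (P j *ᵥ x j a) c.1) =
        fun a c => (e j a c.1 : ℂ) := by
      funext a c
      exact congrFun (hx2 j a) c.1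
    rw [h2]
    exact h1
  obtain ⟨φ, hφ, V, hV, hVe⟩ := exists_phi (lev := lev) hdet hx1 (fun j => li_mid (hPup j) hlev (hli1 j))
    (0 : Matrix (Fin 0) (Fin 0) ℂ) (fun _ => 0)
  have hcod := (hE t ht1 ht2 ht3 P hP htot (hs fun j a => P j *ᵥ x j a) (by rw [hxe]; exact hs_rat e)).2 (hs_lie _)
    ⟨φ, hφ, V, hV, hVe⟩
  exact codim ((Matrix.isUnit_iff_isUnit_det _).1 htot) hx1 (fun j y => surj hC hCu (hPup j) hlev (hli1 j) y) hcod

end Pool.Agent.Helper880_AJ
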